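import Pool.Agent.Results.MP_cd509c_nt.JensenPolynomials
import Pool.Agent.TH99.RJ.WH

/-!
# The number of non-real zeros of the Jensen polynomials of the Ramanujan Xi function

The Jensen polynomials `jensen d n` of the Ramanujan Xi function are those of the starting file
`Pool.Agent.Results.MP_cd509c_nt.JensenPolynomials`.  All zeros of `Ξ_Δ` are real if and only if no
Jensen polynomial has a zero outside of `(-∞, 0]`.  We prove that, for all `d` and `n`, the Jensen
polynomial of degree `d` and shift `n` has at most `C d ^ (2/3) log (d + 1)` zeros outside of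
`(-∞, 0]`.
-/

set_option autoImplicit false

namespace Pool.Agent.Results.MP_cd509c_nt.JensenNonReal

open Polynomial
open Pool.Agent.Results.MP_cd509c_nt.JensenPolynomials (delta Lam Xi gamma jensen AllZerosReal)

/-- The number of complex zeros of a real polynomial outside of the half-line `(-∞, 0]`, counted with
multiplicity (`0` for the zero polynomial). -/
noncomputable def outside (P : ℝ[X]) : ℕ :=
  ((P.map (algebraMap ℝ ℂ)).roots.filter fun z => ¬ (z.im = 0 ∧ z.re ≤ 0)).card

theorem result :
    (∃ C : ℝ, ∀ d n : ℕ,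
      (outside (jensen d n) : ℝ) ≤ C * ((d : ℝ) ^ (2 / 3 : ℝ) * Real.log (d + 1))) ∧
    (AllZerosReal ↔ ∀ d n : ℕ, outside (jensen d n) = 0) := by
  obtain ⟨B, hB⟩ := Pool.Agent.H128R3.JD.DelHk.isHk
  set H := Pool.Agent.H128R3.JD.DelHk.hk B with hH
  have hε : H.ε = 1 := rfl
  have hpr : Pool.Agent.H128R3.GJB.pr H = 0 := by
    unfold Pool.Agent.H128R3.GJB.pr
    rw [if_pos hε]
  have hX1 : Pool.Agent.H128R3.GJB.X1 H = fun z : ℂ => Lam (6 + z) := by
    funext z
    show mellin (fun y : ℝ => ((delta y : ℝ) : ℂ)) ((((12 : ℝ) / 2 : ℝ) : ℂ) + z) = _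
    have h6 : (((12 : ℝ) / 2 : ℝ) : ℂ) = 6 := by
      push_cast
      norm_num
    rw [h6]
    rfl
  have hga : Pool.Agent.H128R3.GJB.ga H = gamma := by
    funext k
    unfold Pool.Agent.H128R3.GJB.ga gamma
    rw [hpr, hX1, add_zero]
  have hJ : ∀ d n, Pool.Agent.W355.GJ.Crit.jensenP (Pool.Agent.H128R3.GJB.pr H)
      (Pool.Agent.H128R3.GJB.X1 H) d n = jensen d n := by
    intro d n
    unfold jensen
    rw [← hga]
    rfl
  have hRH : AllZerosReal ↔ ∀ s : ℂ, mellin (fun y : ℝ => ((H.φ y : ℝ) : ℂ)) s = 0 → s.re = H.k / 2 := by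
    have hk : H.k / 2 = 6 := by
      show (12 : ℝ) / 2 = 6
      norm_num
    rw [hk]
    constructor
    · intro h s hs
      have h3 := h (-Complex.I * (s - 6)) (by
        unfold Xi
        have : 6 + Complex.I * (-Complex.I * (s - 6)) = s := by
          have hI := Complex.I_mul_I
          linear_combination (-(s - 6)) * hI
        rw [this]
        exact hs)
      have h4 : (-Complex.I * (s - 6)).im = -(s.re - 6) := by
        simp [Complex.mul_im]
      rw [h4] at h3
      linarith
    · intro h z hz
      have h3 := h (6 + Complex.I * z) hz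
      have h4 : (6 + Complex.I * z).re = 6 - z.im := by
        simp [Complex.mul_re]
        ring
      rw [h4] at h3
      linarith
  obtain ⟨⟨C, -, h1⟩, h2⟩ := Pool.Agent.TH99.RJ.WH.mcritH hB
  refine ⟨⟨C, fun d n => ?_⟩, hRH.trans (h2.trans ?_)⟩
  · rw [← hJ]
    exact h1 d n
  · constructor
    · intro h d n
      rw [← hJ]
      exact h d n
    · intro h d n
      have h3 := h d n
      rw [← hJ] at h3
      exact h3

end Pool.Agent.Results.MP_cd509c_nt.JensenNonReal
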