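import Pool.Agent.Results.MP_cd509c_nt.JensenPolynomials
import Pool.Agent.TH99.LI.NV

/-!
# The Li coefficients of the Ramanujan Xi function along thin sets

The functions `delta`, `Lam`, `Xi` and the statement `AllZerosReal` are those of the starting file
`Pool.Agent.Results.MP_cd509c_nt.JensenPolynomials`.  For `β > 0` let `λ_β(n)`, `n ≥ 1`, be the
coefficient of `z^(n-1)` of the logarithmic derivative of `z ↦ Λ(6 + β (1+z)/(1-z))` at `0`
(`β = 1/2` is the classical normalisation of Li).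

For EVERY `β > 0` and EVERY set `A` of Bohr recurrence (for instance the set of all differences of the
elements of an arbitrary infinite set of integers, however sparse, or the set of all `k`-th powers) all
zeros of `Ξ_Δ` are real if and only if `λ_β(n) ≥ 0` for all `n ∈ A`; and for `Q ≥ 1` all zeros of `Λ`
lie outside of the Apollonius disc `|s - 6 + β| > Q |s - 6 - β|` if and only if `λ_β(n) ≥ -(Q + ε)^n` for
every `ε > 0` and all large `n ∈ A`.
-/

set_option autoImplicit false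

namespace Pool.Agent.Results.MP_cd509c_nt.LiThinSets

open Pool.Agent.Results.MP_cd509c_nt.JensenPolynomials (delta Lam Xi AllZerosReal)

/-- A set `A` of natural numbers is a set of Bohr recurrence: for finitely many complex numbers `w` of
absolute value one there are arbitrarily large `n ∈ A` with all `w ^ n` as close to `1` as we like. -/
def BohrRecurrent (A : Set ℕ) : Prop :=
  ∀ W : Finset ℂ, (∀ w ∈ W, ‖w‖ = 1) → ∀ ε : ℝ, 0 < ε → ∀ N : ℕ,
    ∃ n ∈ A, N ≤ n ∧ ∀ w ∈ W, ‖w ^ n - 1‖ < ε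

/-- The generalised Li coefficient `λ_β(n)`, `n ≥ 1`: the (real part of the) coefficient of `z^(n-1)` of
the logarithmic derivative of `z ↦ Λ(6 + β (1+z)/(1-z))` at `0`. -/
noncomputable def li (β : ℝ) (n : ℕ) : ℝ :=
  (iteratedDeriv (n - 1) (logDeriv fun z : ℂ => Lam (6 + β * (1 + z) / (1 - z))) 0).re /
    ((n - 1).factorial : ℝ)

/-- **The theorem.** -/
theorem result :
    (∀ S : Set ℕ, S.Infinite → BohrRecurrent {n | ∃ s ∈ S, ∃ t ∈ S, t < s ∧ n = s - t}) ∧
    (∀ k : ℕ, 1 ≤ k → BohrRecurrent {n | ∃ a : ℕ, 0 < a ∧ n = a ^ k}) ∧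
    ∀ β : ℝ, 0 < β →
      (∀ A : Set ℕ, BohrRecurrent A →
        (AllZerosReal ↔ ∀ n ∈ A, 1 ≤ n → 0 ≤ li β n) ∧
        ∀ Q : ℝ, 1 ≤ Q →
          ((∀ s : ℂ, Lam s = 0 → ‖s - 6 + β‖ ≤ Q * ‖s - 6 - β‖) ↔
          ∀ ε : ℝ, 0 < ε → ∃ N : ℕ, ∀ n ∈ A, N ≤ n → -(Q + ε) ^ n ≤ li β n)) ∧
      (¬ AllZerosReal →
        ∃ ρ : ℝ, 1 < ρ ∧ ∀ A : Set ℕ, BohrRecurrent A → ∀ N : ℕ, ∃ n ∈ A, N ≤ n ∧
          li β n ≤ -ρ ^ n) := by
  refine ⟨fun S hS => Pool.Agent.TH99.LI.bohr_diffs hS,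
    fun k hk => Pool.Agent.TH99.LI.bohr_powers hk, fun β hβ => ?_⟩
  obtain ⟨B, hB⟩ := Pool.Agent.H128R3.JD.DelHk.isHk
  set H := Pool.Agent.H128R3.JD.DelHk.hk B with hH
  have hε : H.ε = 1 := rfl
  have hX1 : Pool.Agent.H128R3.GJB.X1 H = fun z : ℂ => Lam (((6 : ℝ) : ℂ) + z) := by
    funext z
    show mellin (fun y : ℝ => ((delta y : ℝ) : ℂ)) ((((12 : ℝ) / 2 : ℝ) : ℂ) + z) = _
    have h6 : (((12 : ℝ) / 2 : ℝ) : ℂ) = ((6 : ℝ) : ℂ) := by
      push_cast
      norm_num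
    rw [h6]
    rfl
  have hsc := Pool.Agent.TH99.RJ.WH.scaleH hB
  rw [hX1] at hsc
  obtain ⟨g, k, hEF⟩ := Pool.Agent.TH99.LI.ef_of_scale hsc
  have hgam : ∀ n, 0 < Pool.Agent.H471R3.GJ.gam (Pool.Agent.H471R3.GJ.dat H) n := by
    obtain ⟨-, -, -, hL⟩ := Pool.Agent.H128R3.GJA.isHk_isL H hB
    obtain ⟨-, hgp, -⟩ := Pool.Agent.H128R3.GJA.isL_all _ hL
    refine hgp fun t => ?_
    show 0 < Pool.Agent.H471R3.GJ.PhiH H t
    unfold Pool.Agent.H471R3.GJ.PhiH
    rw [if_pos hε]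
    unfold Pool.Agent.H471R3.GJ.Phi0
    have h1 := Pool.Agent.H128R3.GJB.kp_pos hB
    have h2 : 0 < H.φ (Real.exp (t / Pool.Agent.H471R3.GJ.kp H)) :=
      Pool.Agent.H128R3.JD.DelK.Dl_pos (Real.exp_pos _)
    positivity
  have hF : Lam (((6 : ℝ) : ℂ) + β) ≠ 0 := Pool.Agent.TH99.LI.ne_of_pos hsc hgam hβ
  have hRH : AllZerosReal ↔ ∀ s : ℂ, Lam s = 0 → s.re = 6 := by
    constructor
    · intro h s hs
      have h3 := h (-Complex.I * (s - 6)) (by
        unfold Xi
        have : 6 + Complex.I * (-Complex.I * (s - 6)) = s := by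
          have hI := Complex.I_mul_I
          linear_combination (-(s - 6)) * hI
        rw [this]
        exact hs)
      have h4 : (-Complex.I * (s - 6)).im = -(s.re - 6) := by
        simp [Complex.mul_im]
      rw [h4] at h3
      linarith
    · intro h z hz
      have h3 := h (6 + Complex.I * z) hz
      have h4 : (6 + Complex.I * z).re = 6 - z.im := by
        simp [Complex.mul_re]
        ring
      rw [h4] at h3
      linarith
  have h6 : ((6 : ℝ) : ℂ) = 6 := by norm_num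
  have hcrit := fun (A : Set ℕ) (hA : Pool.Agent.TH99.LI.BohrRec A) => hEF.crit_center hβ hF hA
  have hlarge := fun hr => hEF.large_center hβ hF hr
  rw [h6] at hcrit hlarge
  rw [hRH]
  exact ⟨fun A hA => hcrit A hA, fun hr => hlarge hr⟩

end Pool.Agent.Results.MP_cd509c_nt.LiThinSets
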