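import Pool.Agent.Results.MP_cd509c_nt.JensenPolynomials
import Pool.Agent.TH809.TP.GenH

/-!
# Multiple positivity of the Taylor coefficients of the Ramanujan Xi function

Let `Λ(6 + z) = G(z²)`, where `Λ(s) = (2π)^(-s) Γ(s) L(s, Δ)`, so that `Ξ_Δ(z) = G(-z²)` (definitions of
the starting file `Pool.Agent.Results.MP_cd509c_nt.JensenPolynomials`).  We prove that there is a
constant `C` such that for all orders `m` and all `n ≥ C log (m + 1)` all minors of order `m` of the
Toeplitz matrix of the Taylor coefficients of the `n`-th derivative of `G` are nonnegative, and that all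
zeros of `Ξ_Δ` are real if and only if the remaining minors are nonnegative.
-/

set_option autoImplicit false

namespace Pool.Agent.Results.MP_cd509c_nt.MultiplePositivity

open Pool.Agent.Results.MP_cd509c_nt.JensenPolynomials (delta Lam Xi gamma AllZerosReal)

/-- The `k`-th Taylor coefficient of the `n`-th derivative of `G`, where `Λ(6 + z) = G(z²)`, that is
`G(x) = ∑ γ(k) x^k / k!`. -/
noncomputable def coef (n k : ℕ) : ℝ := gamma (n + k) / (k.factorial : ℝ)

/-- The upper triangular Toeplitz matrix of these coefficients (row `i`, column `j`). -/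
noncomputable def T (n i j : ℕ) : ℝ := if i ≤ j then coef n (j - i) else 0

/-- All minors of order `m` of the infinite matrix `T n` are nonnegative. -/
def NonnegMinors (n m : ℕ) : Prop := ∀ a b : Fin m → ℕ, StrictMono a → StrictMono b →
  0 ≤ (Matrix.of fun p q => T n (a p) (b q)).det

theorem result :
    ∃ C : ℝ, 0 < C ∧
      (∀ m n : ℕ, C * Real.log (m + 1) ≤ n → NonnegMinors n m) ∧
      (AllZerosReal ↔ ∀ m n : ℕ, (n : ℝ) < C * Real.log (m + 1) → NonnegMinors n m) := by
  obtain ⟨B, hB⟩ := Pool.Agent.H128R3.JD.DelHk.isHk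
  set H := Pool.Agent.H128R3.JD.DelHk.hk B with hH
  have hε : H.ε = 1 := rfl
  have hpr : Pool.Agent.H128R3.GJB.pr H = 0 := by
    unfold Pool.Agent.H128R3.GJB.pr
    rw [if_pos hε]
  have hX1 : Pool.Agent.H128R3.GJB.X1 H = fun z : ℂ => Lam (6 + z) := by
    funext z
    show mellin (fun y : ℝ => ((delta y : ℝ) : ℂ)) ((((12 : ℝ) / 2 : ℝ) : ℂ) + z) = _
    have h6 : (((12 : ℝ) / 2 : ℝ) : ℂ) = 6 := by
      push_cast
      norm_num
    rw [h6]
    rfl
  have hga : Pool.Agent.H128R3.GJB.ga H = gamma := by
    funext k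
    unfold Pool.Agent.H128R3.GJB.ga gamma
    rw [hpr, hX1, add_zero]
  have hM : ∀ m n : ℕ, Pool.Agent.TH809.TP.GC.Minors m (Pool.Agent.TH809.TP.GC.cF
      (Pool.Agent.H128R3.GJB.pr H) (Pool.Agent.H128R3.GJB.X1 H) n) ↔ NonnegMinors n m := by
    intro m n
    have e : Pool.Agent.TH809.TP.GC.cF (Pool.Agent.H128R3.GJB.pr H) (Pool.Agent.H128R3.GJB.X1 H) n =
        fun k => coef n k := by
      funext k
      unfold coef
      rw [← hga]
      rfl
    rw [e]
    rfl
  have hRH : AllZerosReal ↔ ∀ s : ℂ, mellin (fun y : ℝ => ((H.φ y : ℝ) : ℂ)) s = 0 → s.re = H.k / 2 := by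
    have hk : H.k / 2 = 6 := by
      show (12 : ℝ) / 2 = 6
      norm_num
    rw [hk]
    constructor
    · intro h s hs
      have h1 : Xi ((s - 6) / Complex.I) = 0 := by
        unfold Xi
        have e : (6 : ℂ) + Complex.I * ((s - 6) / Complex.I) = s := by
          field_simp [Complex.I_ne_zero]
          ring
        rw [e]
        exact hs
      have h2 := h _ h1
      have h3 : ((s - 6) / Complex.I).im = -(s.re - 6) := by
        rw [Complex.div_I]
        simp
      rw [h3] at h2
      linarith
    · intro h z hz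
      have h1 := h (6 + Complex.I * z) hz
      simp at h1
      exact h1
  obtain ⟨C, hC, h1, h2⟩ := Pool.Agent.TH809.TP.GH.mcritH hB
  refine ⟨C, hC, fun m n hmn => (hM m n).1 (h1 m n hmn), (hRH.trans h2).trans ?_⟩
  constructor
  · intro h m n hmn
    exact (hM m n).1 (h m n hmn)
  · intro h m n hmn
    exact (hM m n).2 (h m n hmn)

end Pool.Agent.Results.MP_cd509c_nt.MultiplePositivity
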